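import Pool.Agent.helper62.RS.SpecS

set_option autoImplicit false

open scoped MatrixGroups ContDiff Topology UpperHalfPlane
open UpperHalfPlane MeasureTheory Filter Set

namespace Pool.Agent.RS

/-- derivative in the first variable -/
noncomputable def SMV_G (F : ℝ × ℝ → ℂ) (p : ℝ × ℝ) : ℂ := fderiv ℝ F p (1, 0)

/-- derivative in the second variable -/
noncomputable def SMV_H (F : ℝ × ℝ → ℂ) (p : ℝ × ℝ) : ℂ := fderiv ℝ F p (0, 1)

theorem SMV_G_hasDeriv {F : ℝ × ℝ → ℂ} (hF : ContDiff ℝ 1 F) (t θ : ℝ) :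
    HasDerivAt (fun t' => F (t', θ)) (SMV_G F (t, θ)) t := by
  have h1 : HasFDerivAt F (fderiv ℝ F (t, θ)) (t, θ) := (hF.differentiable one_ne_zero (t, θ)).hasFDerivAt
  have h2 : HasDerivAt (fun t' : ℝ => (t', θ)) ((1 : ℝ), (0 : ℝ)) t := (hasDerivAt_id t).prodMk (hasDerivAt_const t θ)
  exact h1.comp_hasDerivAt t h2

theorem SMV_H_hasDeriv {F : ℝ × ℝ → ℂ} (hF : ContDiff ℝ 1 F) (t θ : ℝ) :
    HasDerivAt (fun θ' => F (t, θ')) (SMV_H F (t, θ)) θ := by
  have h1 : HasFDerivAt F (fderiv ℝ F (t, θ)) (t, θ) := (hF.differentiable one_ne_zero (t, θ)).hasFDerivAt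
  have h2 : HasDerivAt (fun θ' : ℝ => (t, θ')) ((0 : ℝ), (1 : ℝ)) θ := (hasDerivAt_const θ t).prodMk (hasDerivAt_id θ)
  exact h1.comp_hasDerivAt θ h2

theorem SMV_G_cont {F : ℝ × ℝ → ℂ} (hF : ContDiff ℝ 1 F) : Continuous (SMV_G F) :=
  (hF.continuous_fderiv one_ne_zero).clm_apply continuous_const

theorem SMV_H_cont {F : ℝ × ℝ → ℂ} (hF : ContDiff ℝ 1 F) : Continuous (SMV_H F) :=
  (hF.continuous_fderiv one_ne_zero).clm_apply continuous_const

theorem SMV_G_smooth {F : ℝ × ℝ → ℂ} (hF : ContDiff ℝ 2 F) : ContDiff ℝ 1 (SMV_G F) :=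
  (hF.fderiv_right (m := 1) (by norm_num [one_add_one_eq_two])).clm_apply contDiff_const

theorem SMV_H_smooth {F : ℝ × ℝ → ℂ} (hF : ContDiff ℝ 2 F) : ContDiff ℝ 1 (SMV_H F) :=
  (hF.fderiv_right (m := 1) (by norm_num [one_add_one_eq_two])).clm_apply contDiff_const

/-- differentiation under the integral sign -/
theorem SMV_int {F : ℝ × ℝ → ℂ} (hF : ContDiff ℝ 1 F) (a b t : ℝ) :
    HasDerivAt (fun t => ∫ θ in a..b, F (t, θ)) (∫ θ in a..b, SMV_G F (t, θ)) t := by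
  have hG := SMV_G_cont hF
  have hK : IsCompact (Metric.closedBall t 1 ×ˢ uIcc a b) := (isCompact_closedBall t 1).prod isCompact_uIcc
  obtain ⟨C, hC⟩ := hK.exists_bound_of_continuousOn hG.continuousOn
  have hsec : ∀ t' : ℝ, Continuous fun θ => F (t', θ) := fun t' => hF.continuous.comp (by fun_prop)
  refine (intervalIntegral.hasDerivAt_integral_of_dominated_loc_of_deriv_le (F := fun t' θ => F (t', θ))
    (F' := fun t' θ => SMV_G F (t', θ)) (x₀ := t) (s := Metric.ball t 1) (bound := fun _ => C)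
    (Metric.ball_mem_nhds t one_pos)
    (Eventually.of_forall fun t' => (hsec t').aestronglyMeasurable) ((hsec t).intervalIntegrable a b)
    ((hG.comp (by fun_prop : Continuous fun θ : ℝ => (t, θ))).aestronglyMeasurable)
    (Eventually.of_forall fun θ hθ t' ht' => ?_) intervalIntegrable_const
    (Eventually.of_forall fun θ _ t' _ => SMV_G_hasDeriv hF t' θ)).2
  exact hC (t', θ) ⟨Metric.ball_subset_closedBall ht', uIoc_subset_uIcc hθ⟩

/-- from two derivatives to `ContDiff` -/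
theorem SMV_CD {W W1 W2 : ℝ → ℂ} (h1 : ∀ t, HasDerivAt W (W1 t) t) (h2 : ∀ t, HasDerivAt W1 (W2 t) t)
    (h3 : Continuous W2) : ContDiff ℝ 2 W ∧ deriv W = W1 ∧ iteratedDeriv 2 W = W2 := by
  have e1 : deriv W = W1 := funext fun t => (h1 t).deriv
  have e2 : deriv W1 = W2 := funext fun t => (h2 t).deriv
  have c1 : ContDiff ℝ 1 W1 := by
    rw [contDiff_one_iff_deriv]
    exact ⟨fun t => (h2 t).differentiableAt, by rw [e2]; exact h3⟩
  refine ⟨?_, e1, ?_⟩
  · have h : ContDiff ℝ (1 + 1) W := by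
      rw [contDiff_succ_iff_deriv]
      refine ⟨fun t => (h1 t).differentiableAt, fun h => absurd h (by simp), ?_⟩
      rw [e1]
      exact c1
    rw [one_add_one_eq_two] at h
    exact h
  · rw [iteratedDeriv_succ, iteratedDeriv_one, e1, e2]

/-- the mean over the circle -/
noncomputable def SMV_U (v : ℍ → ℂ) (t : ℝ) : ℂ := ∫ θ in (0 : ℝ)..(2 * Real.pi), v (kM θ • aM t • I)

theorem SMV_data (hSPO : SPO_stmt) (hper : ∀ θ, kM (θ + 2 * Real.pi) = kM θ) (μ : ℝ) (v : ℍ → ℂ) (hv : QU.CD 2 v)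
    (hlap : ∀ z, QU.lap v z = (μ : ℂ) * v z) : ∃ U1 U2 : ℝ → ℂ,
    (∀ t, HasDerivAt (SMV_U v) (U1 t) t) ∧ (∀ t, HasDerivAt U1 (U2 t) t) ∧ Continuous U2 ∧
    ∀ t : ℝ, 0 < t → U2 t + (Real.cosh t / Real.sinh t : ℝ) * U1 t + μ * SMV_U v t = 0 := by
  obtain ⟨hF, hpol⟩ := hSPO v hv
  set F : ℝ × ℝ → ℂ := fun q : ℝ × ℝ => v (kM q.2 • aM q.1 • I) with hFdef
  have hF1 : ContDiff ℝ 1 F := hF.of_le (by norm_num)
  have hG1 : ContDiff ℝ 1 (SMV_G F) := SMV_G_smooth hF
  have hH1 : ContDiff ℝ 1 (SMV_H F) := SMV_H_smooth hF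
  have hGG := SMV_G_cont hG1
  have hHH := SMV_H_cont hH1
  refine ⟨fun t => ∫ θ in (0 : ℝ)..(2 * Real.pi), SMV_G F (t, θ),
    fun t => ∫ θ in (0 : ℝ)..(2 * Real.pi), SMV_G (SMV_G F) (t, θ), fun t => SMV_int hF1 0 (2 * Real.pi) t,
    fun t => SMV_int hG1 0 (2 * Real.pi) t, ?_, ?_⟩
  · exact intervalIntegral.continuous_parametric_intervalIntegral_of_continuous' (f := fun t θ => SMV_G (SMV_G F) (t, θ))
      (show Continuous (Function.uncurry fun t θ => SMV_G (SMV_G F) (t, θ)) from hGG) 0 (2 * Real.pi)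
  · intro t ht
    have e0 : ∀ θ, SMV_G (SMV_G F) (t, θ) + (Real.cosh t / Real.sinh t : ℝ) * SMV_G F (t, θ) +
        ((4 * Real.sinh t ^ 2)⁻¹ : ℝ) * SMV_H (SMV_H F) (t, θ) + μ * F (t, θ) = 0 := by
      intro θ
      have h1 := hpol t θ ht
      have a1 : deriv (fun t' => v (kM θ • aM t' • I)) = fun t' => SMV_G F (t', θ) :=
        funext fun t' => (SMV_G_hasDeriv hF1 t' θ).deriv
      have a2 : deriv (fun θ' => v (kM θ' • aM t • I)) = fun θ' => SMV_H F (t, θ') :=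
        funext fun θ' => (SMV_H_hasDeriv hF1 t θ').deriv
      rw [iteratedDeriv_succ, iteratedDeriv_one, iteratedDeriv_succ, iteratedDeriv_one, a1, a2,
        (SMV_G_hasDeriv hG1 t θ).deriv, (SMV_H_hasDeriv hH1 t θ).deriv, hlap] at h1
      rw [h1]
      show -((μ : ℂ) * v (kM θ • aM t • I)) + (μ : ℂ) * v (kM θ • aM t • I) = 0
      ring
    have i1 : IntervalIntegrable (fun θ => SMV_G (SMV_G F) (t, θ)) volume 0 (2 * Real.pi) :=
      (hGG.comp (by fun_prop : Continuous fun θ : ℝ => (t, θ))).intervalIntegrable _ _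
    have i2 : IntervalIntegrable (fun θ => SMV_G F (t, θ)) volume 0 (2 * Real.pi) :=
      ((SMV_G_cont hF1).comp (by fun_prop : Continuous fun θ : ℝ => (t, θ))).intervalIntegrable _ _
    have i3 : IntervalIntegrable (fun θ => SMV_H (SMV_H F) (t, θ)) volume 0 (2 * Real.pi) :=
      (hHH.comp (by fun_prop : Continuous fun θ : ℝ => (t, θ))).intervalIntegrable _ _
    have i4 : IntervalIntegrable (fun θ => F (t, θ)) volume 0 (2 * Real.pi) :=
      (hF1.continuous.comp (by fun_prop : Continuous fun θ : ℝ => (t, θ))).intervalIntegrable _ _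
    have hzero : ∫ θ in (0 : ℝ)..(2 * Real.pi), SMV_H (SMV_H F) (t, θ) = 0 := by
      rw [intervalIntegral.integral_eq_sub_of_hasDerivAt (fun θ _ => SMV_H_hasDeriv hH1 t θ) i3]
      have h5 : SMV_H F (t, 2 * Real.pi) = SMV_H F (t, 0) := by
        rw [← (SMV_H_hasDeriv hF1 t (2 * Real.pi)).deriv, ← (SMV_H_hasDeriv hF1 t 0).deriv]
        have h6 : (fun θ' => F (t, θ')) = fun θ' => F (t, θ' + 2 * Real.pi) := by
          funext θ'
          show v (kM θ' • aM t • I) = v (kM (θ' + 2 * Real.pi) • aM t • I)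
          rw [hper]
        conv_rhs => rw [h6]
        rw [deriv_comp_add_const (fun θ' => F (t, θ')) (2 * Real.pi) 0, zero_add]
      rw [h5, sub_self]
    have h7 : ∫ θ in (0 : ℝ)..(2 * Real.pi), (SMV_G (SMV_G F) (t, θ) + (Real.cosh t / Real.sinh t : ℝ) * SMV_G F (t, θ) +
        ((4 * Real.sinh t ^ 2)⁻¹ : ℝ) * SMV_H (SMV_H F) (t, θ) + μ * F (t, θ)) = 0 := by
      rw [← intervalIntegral.integral_zero (a := (0 : ℝ)) (b := 2 * Real.pi) (μ := volume) (E := ℂ)]
      exact intervalIntegral.integral_congr fun θ _ => e0 θ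
    rw [intervalIntegral.integral_add ((i1.add (i2.const_mul _)).add (i3.const_mul _)) (i4.const_mul _),
      intervalIntegral.integral_add (i1.add (i2.const_mul _)) (i3.const_mul _),
      intervalIntegral.integral_add i1 (i2.const_mul _), intervalIntegral.integral_const_mul,
      intervalIntegral.integral_const_mul, intervalIntegral.integral_const_mul, hzero, mul_zero, add_zero] at h7
    exact h7

theorem SMV_even (hkadd : ∀ s t, kM (s + t) = kM s * kM t) (hper : ∀ θ, kM (θ + 2 * Real.pi) = kM θ)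
    (hkI : ∀ θ, kM θ • I = I) (hka : ∀ t : ℝ, kM (Real.pi / 2) * aM t = aM (-t) * kM (Real.pi / 2)) (v : ℍ → ℂ) (t : ℝ) :
    SMV_U v (-t) = SMV_U v t := by
  have h1 : ∀ θ, v (kM θ • aM (-t) • I) = v (kM (θ + Real.pi / 2) • aM t • I) := by
    intro θ
    congr 1
    rw [smul_smul, smul_smul, hkadd, mul_assoc, hka, ← mul_assoc, mul_smul (kM θ * aM (-t)), hkI]
  unfold SMV_U
  have hp : Function.Periodic (fun θ => v (kM θ • aM t • I)) (2 * Real.pi) := by
    intro θ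
    show v (kM (θ + 2 * Real.pi) • aM t • I) = v (kM θ • aM t • I)
    rw [hper]
  calc ∫ θ in (0 : ℝ)..(2 * Real.pi), v (kM θ • aM (-t) • I)
      = ∫ θ in (0 : ℝ)..(2 * Real.pi), (fun θ => v (kM θ • aM t • I)) (θ + Real.pi / 2) :=
        intervalIntegral.integral_congr fun θ _ => h1 θ
    _ = ∫ θ in (0 + Real.pi / 2)..(2 * Real.pi + Real.pi / 2), v (kM θ • aM t • I) :=
        intervalIntegral.integral_comp_add_right (fun θ => v (kM θ • aM t • I)) (Real.pi / 2)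
    _ = ∫ θ in (Real.pi / 2)..(Real.pi / 2 + 2 * Real.pi), v (kM θ • aM t • I) := by
        rw [zero_add, add_comm (2 * Real.pi)]
    _ = ∫ θ in (0 : ℝ)..(0 + 2 * Real.pi), v (kM θ • aM t • I) := hp.intervalIntegral_add_eq (Real.pi / 2) 0
    _ = ∫ θ in (0 : ℝ)..(2 * Real.pi), v (kM θ • aM t • I) := by rw [zero_add]

theorem SMV (hGLC : GLC_stmt) (hSPO : SPO_stmt) (hSOD : SOD_stmt) (hSPW : SPW_stmt) : SMV_stmt := by
  obtain ⟨-, -, -, -, -, -, -, haM, -, -, -, -, -, hkadd, hper, hkI, -, -, -, hka⟩ := hGLC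
  obtain ⟨hw1, -, -, -, -, -⟩ := hSPW
  intro s v hv hlap t
  have ha0 : aM 0 • I = I := by
    apply UpperHalfPlane.ext
    rw [haM, Real.exp_zero, Complex.ofReal_one, one_mul]
  set w : ℍ → ℂ := wv s 1 with hwdef
  have hwI : w I = 1 := by
    rw [hwdef]
    unfold wv
    rw [one_smul, UpperHalfPlane.I_im, Complex.ofReal_one, Complex.one_cpow]
  have hww : ∀ (g : SL(2, ℝ)) (z : ℍ), wv s g z = w (g • z) := by
    intro g z
    rw [hwdef]
    unfold wv
    rw [one_smul]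
  have hU0 : ∀ v : ℍ → ℂ, SMV_U v 0 = (2 * Real.pi : ℝ) * v I := by
    intro v
    unfold SMV_U
    have h1 : ∀ θ, v (kM θ • aM 0 • I) = v I := by
      intro θ
      rw [ha0, hkI]
    simp only [h1]
    rw [intervalIntegral.integral_const, sub_zero, Complex.real_smul]
  have hcdw : QU.CD 2 w := (hw1 s 1).1.of_le (WithTop.coe_le_coe.2 (le_top : (2 : ℕ∞) ≤ ⊤))
  obtain ⟨U1, U2, hU1, hU2, hU3, hU4⟩ := SMV_data hSPO hper (1 / 4 + s ^ 2) v hv hlap
  obtain ⟨V1, V2, hV1, hV2, hV3, hV4⟩ := SMV_data hSPO hper (1 / 4 + s ^ 2) w hcdw (hw1 s 1).2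
  set c : ℂ := v I with hc
  set W : ℝ → ℂ := fun t => SMV_U v t - c * SMV_U w t with hW
  have hWd1 : ∀ t, HasDerivAt W (U1 t - c * V1 t) t := fun t => (hU1 t).sub ((hV1 t).const_mul c)
  have hWd2 : ∀ t, HasDerivAt (fun t => U1 t - c * V1 t) (U2 t - c * V2 t) t := fun t => (hU2 t).sub ((hV2 t).const_mul c)
  obtain ⟨c1, c2, c3⟩ := SMV_CD hWd1 hWd2 (hU3.sub (continuous_const.mul hV3))
  have hWeven : ∀ t, W (-t) = W t := by
    intro t
    show SMV_U v (-t) - c * SMV_U w (-t) = SMV_U v t - c * SMV_U w t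
    rw [SMV_even hkadd hper hkI hka, SMV_even hkadd hper hkI hka]
  have hW0 : W 0 = 0 := by
    show SMV_U v 0 - c * SMV_U w 0 = 0
    rw [hU0, hU0, hwI, ← hc]
    ring
  have hdW0 : deriv W 0 = 0 := by
    have h1 : deriv (fun t => W (-t)) 0 = -deriv W (-0) := deriv_comp_neg W 0
    have h2 : (fun t => W (-t)) = W := funext hWeven
    rw [h2, neg_zero] at h1
    exact self_eq_neg.1 h1
  have hSO := hSOD (1 / 4 + s ^ 2) W (by positivity) c1 hW0 hdW0 (by
    intro t ht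
    rw [c2, c3]
    have h1 := hU4 t ht
    have h2 := hV4 t ht
    show (U2 t - c * V2 t) + (Real.cosh t / Real.sinh t : ℝ) * (U1 t - c * V1 t) +
      ((1 / 4 + s ^ 2 : ℝ) : ℂ) * (SMV_U v t - c * SMV_U w t) = 0
    linear_combination h1 - c * h2)
  have hWt : W t = 0 := by
    rcases le_total 0 t with h | h
    · exact hSO t h
    · rw [← hWeven t]
      exact hSO (-t) (by linarith)
  have hfin : SMV_U v t = c * SMV_U w t := sub_eq_zero.1 hWt
  have e1 : ∫ θ in (0 : ℝ)..(2 * Real.pi), wv s (kM θ) (aM t • I) = SMV_U w t := by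
    unfold SMV_U
    exact intervalIntegral.integral_congr fun θ _ => hww _ _
  rw [e1]
  exact hfin

end Pool.Agent.RS
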